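import Pool.Agent.helper50.BS.SpecU

/-!
# Project bs: module UC10
-/

set_option autoImplicit false
set_option linter.unusedVariables false
set_option linter.dupNamespace false

open scoped Classical

noncomputable section

namespace Pool.Agent.helper50.BT

open Pool.Agent.helper81.PL

lemma UC10_cf {M n k l : ℕ} (T : BS.TR M n k l) (g : BS.IG) (W P : Finset ℕ) (a c j : ℕ)
    (ha : a ≤ n) (hc : c ≤ k) (hj : j ≤ l) (h0 : j ≠ 0) :
    T.cf a c j (BS.FR g T.x T.y W P) = 0 := by
  unfold BS.FR
  rw [map_sum]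
  apply Finset.sum_eq_zero
  intro A _
  have h1 := T.cf_mon a c j (BS.nW W A) (g.cW W A) 0 ha hc hj
  rw [pow_zero, mul_one] at h1
  rw [h1, if_neg]
  rintro ⟨-, -, h⟩
  exact h0 h.symm

lemma UC10_cnt (g : BS.IG) (W P : Finset ℕ) (a c : ℕ) (ha : W.card < a) :
    BS.cnt g W P a c = 0 := by
  unfold BS.cnt
  rw [Finset.card_eq_zero, Finset.filter_eq_empty_iff]
  rintro A - ⟨-, h1, -⟩
  have h2 : BS.nW W A ≤ W.card := Finset.card_le_card Finset.inter_subset_right
  omega

theorem UC10 (hUB2 : UB2_stmt) (hTR3 : BS.TR3_stmt) (hUC9 : UC9_stmt) : UC10_stmt := by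
  intro N M n k E W PP Tl h T H P hP
  obtain ⟨h1, h2, h3⟩ := hUB2 n k (3 * k) (fun a c j => bif eqb j 0 && leb a W.card then
    resE N M n k E Tl W PP P a c else 0) (resT N M n k E Tl W PP P) rfl
  have hM := H.two
  have h9 := hUC9 N M n k E W PP Tl h T H P hP
  refine ⟨h1, ?_, ?_⟩
  · intro x hx
    obtain ⟨a, c, j, ha, hc, hj, rfl⟩ := h3 x hx
    by_cases hq : (eqb j 0 && leb a W.card) = true
    · rw [hq, cond_true]
      have h4 : a ≤ W.card := by
        simp only [Bool.and_eq_true, leb, decide_eq_true_eq] at hq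
        exact hq.2
      exact (h9 a c h4 hc).1
    · rw [Bool.not_eq_true] at hq
      rw [hq, cond_false]
      omega
  · intro a c j ha hc hj
    rw [h2 a c j ha hc hj]
    by_cases hj0 : j = 0
    · subst hj0
      rw [(hTR3 M n k (3 * k) T (ig n E h) W ∅ P a c 0 ha hc (Nat.zero_le _)).2]
      by_cases haW : a ≤ W.card
      · have hq : (eqb 0 0 && leb a W.card) = true := by
          simp [eqb, leb, haW]
        rw [hq, cond_true]
        exact (h9 a c haW hc).2
      · have hq : (eqb 0 0 && leb a W.card) = false := by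
          simp [eqb, leb]
          omega
        rw [hq, cond_false, UC10_cnt _ _ _ _ _ (not_le.mp haW)]
    · have hq : (eqb j 0 && leb a W.card) = false := by
        simp [eqb, hj0]
      rw [hq, cond_false, UC10_cf T _ _ _ _ _ _ ha hc hj hj0, Nat.cast_zero]

end Pool.Agent.helper50.BT

end
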