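import Pool.Agent.helper50.BS.SpecU

/-!
# Project bs: module UB2 (backup)
-/

set_option autoImplicit false
set_option linter.unusedVariables false
set_option linter.dupNamespace false

open scoped Classical

noncomputable section

namespace Pool.Agent.helper69.BS

open Pool.Agent.helper81.PL Pool.Agent.helper50.BT

lemma UB2_len {α : Type} (m : ℕ) (g : ℕ → List α) (hg : ∀ i, (g i).length = m) (p : ℕ) :
    ((List.range p).flatMap g).length = p * m := by
  induction p with
  | zero => simp
  | succ p ih =>
    rw [List.range_succ, List.flatMap_append, List.length_append, ih]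
    simp [hg]
    ring

lemma UB2_getD {α : Type} (d : α) (m : ℕ) (g : ℕ → List α) (hg : ∀ i, (g i).length = m) (p : ℕ)
    (i r : ℕ) (hi : i < p) (hr : r < m) :
    ((List.range p).flatMap g).getD (i * m + r) d = (g i).getD r d := by
  induction p with
  | zero => omega
  | succ p ih =>
    rw [List.range_succ, List.flatMap_append]
    rcases Nat.lt_succ_iff_lt_or_eq.mp hi with h | h
    · rw [List.getD_append _ _ _ _ (by
        rw [UB2_len m g hg]
        have : (i + 1) * m ≤ p * m := Nat.mul_le_mul_right _ h
        rw [add_mul, one_mul] at this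
        omega)]
      exact ih h
    · subst h
      rw [List.getD_append_right _ _ _ _ (by rw [UB2_len m g hg]; omega), UB2_len m g hg]
      simp

theorem UB2 : UB2_stmt := by
  intro n k l f L hL
  subst hL
  have h1 : ∀ a c, ((List.range (l + 1)).map (fun j => f a c j)).length = l + 1 := by
    intro a c; simp
  have h2 : ∀ a, ((List.range (k + 1)).flatMap (fun c =>
      (List.range (l + 1)).map (fun j => f a c j))).length = (k + 1) * (l + 1) :=
    fun a => UB2_len (l + 1) _ (h1 a) (k + 1)
  refine ⟨?_, ?_, ?_⟩
  · rw [UB2_len _ _ h2 (n + 1)]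
    ring
  · intro a c j ha hc hj
    unfold cfT
    have e : (a * (k + 1) + c) * (l + 1) + j = a * ((k + 1) * (l + 1)) + (c * (l + 1) + j) := by
      ring
    have hlt : c * (l + 1) + j < (k + 1) * (l + 1) := by
      have : c * (l + 1) ≤ k * (l + 1) := Nat.mul_le_mul_right _ hc
      rw [add_mul k 1]
      omega
    rw [e, UB2_getD 0 _ _ h2 (n + 1) a _ (by omega) hlt,
      UB2_getD 0 _ _ (h1 a) (k + 1) c j (by omega) (by omega)]
    rw [List.getD_eq_getElem _ _ (by simp; omega)]
    simp
  · intro x hx
    simp only [List.mem_flatMap, List.mem_map, List.mem_range] at hx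
    obtain ⟨a, ha, c, hc, j, hj, rfl⟩ := hx
    exact ⟨a, c, j, by omega, by omega, by omega, rfl⟩

end Pool.Agent.helper69.BS

end
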