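import Pool.Agent.helper50.BS.SpecU

/-!
# Project bs: modules UB3, UB4 (backup)
-/

set_option autoImplicit false
set_option linter.unusedVariables false
set_option linter.dupNamespace false

open scoped Classical

noncomputable section

namespace Pool.Agent.helper69.BS

open Pool.Agent.helper81.PL Pool.Agent.helper50.BT

theorem UB3 (hUB2 : UB2_stmt) : UB3_stmt := by
  intro M n k l T hM
  have hmon : ∀ a c j, Rp T (monT M n k l a c j) (T.x ^ a * T.y ^ c * T.u ^ j) := by
    intro a0 c0 j0
    obtain ⟨h1, h2, h3⟩ := hUB2 n k l (fun a c j =>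
      bif eqb a a0 && eqb c c0 && eqb j j0 then 1 % M else 0) (monT M n k l a0 c0 j0) rfl
    refine ⟨h1, ?_, ?_⟩
    · intro x hx
      obtain ⟨a, c, j, ha, hc, hj, rfl⟩ := h3 x hx
      cases (eqb a a0 && eqb c c0 && eqb j j0)
      · simp only [cond_false]; omega
      · simp only [cond_true]; exact Nat.mod_lt _ (by omega)
    · intro a c j ha hc hj
      rw [h2 a c j ha hc hj]
      have h4 := T.cf_mon a c j a0 c0 j0 ha hc hj
      rw [h4]
      by_cases hq : a0 = a ∧ c0 = c ∧ j0 = j
      · obtain ⟨rfl, rfl, rfl⟩ := hq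
        have : (eqb a0 a0 && eqb c0 c0 && eqb j0 j0) = true := by simp [eqb]
        rw [this, cond_true, if_pos ⟨rfl, rfl, rfl⟩, ZMod.natCast_mod, Nat.cast_one]
      · have : (eqb a a0 && eqb c c0 && eqb j j0) = false := by
          rw [Bool.eq_false_iff]
          intro h
          apply hq
          simp only [Bool.and_eq_true, eqb, decide_eq_true_eq] at h
          exact ⟨h.1.1.symm, h.1.2.symm, h.2.symm⟩
        rw [this, cond_false, if_neg hq, Nat.cast_zero]
  refine ⟨hmon, ?_, ?_⟩
  · have := hmon 0 0 0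
    rw [pow_zero, pow_zero, pow_zero, mul_one, mul_one] at this
    exact this
  · refine ⟨by simp [zeroT], ?_, ?_⟩
    · intro x hx
      unfold zeroT at hx
      rw [List.eq_of_mem_replicate hx]
      omega
    · intro a c j ha hc hj
      have : cfT k l (zeroT n k l) a c j = 0 := by
        unfold cfT zeroT
        rw [List.getD_eq_getElem?_getD, List.getElem?_replicate]
        split_ifs <;> simp
      rw [this, map_zero, Nat.cast_zero]

lemma UB4_idx {n k l a c j : ℕ} (ha : a ≤ n) (hc : c ≤ k) (hj : j ≤ l) :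
    (a * (k + 1) + c) * (l + 1) + j < (n + 1) * (k + 1) * (l + 1) := by
  have h1 : a * (k + 1) + c + 1 ≤ (n + 1) * (k + 1) := by
    have : a * (k + 1) ≤ n * (k + 1) := Nat.mul_le_mul_right _ ha
    rw [add_mul n 1]
    omega
  have h2 : (a * (k + 1) + c + 1) * (l + 1) ≤ (n + 1) * (k + 1) * (l + 1) :=
    Nat.mul_le_mul_right _ h1
  rw [add_mul _ 1 (l + 1)] at h2
  omega

theorem UB4 : UB4_stmt := by
  intro M n k l T A B r r' hM ⟨a1, a2, a3⟩ ⟨b1, b2, b3⟩
  constructor
  · refine ⟨by simp [addT, a1, b1], ?_, ?_⟩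
    · intro x hx
      unfold addT at hx
      rw [List.mem_iff_getElem] at hx
      obtain ⟨i, hi, rfl⟩ := hx
      rw [List.getElem_zipWith]
      exact Nat.mod_lt _ (by omega)
    · intro a c j ha hc hj
      have hlt := UB4_idx ha hc hj
      rw [map_add, ← a3 a c j ha hc hj, ← b3 a c j ha hc hj]
      unfold cfT addT
      rw [List.getD_eq_getElem _ _ (by simp [a1, b1, hlt]),
        List.getD_eq_getElem _ _ (by rw [a1]; exact hlt),
        List.getD_eq_getElem _ _ (by rw [b1]; exact hlt), List.getElem_zipWith,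
        ZMod.natCast_mod, Nat.cast_add]
  · refine ⟨by simp [subT, a1, b1], ?_, ?_⟩
    · intro x hx
      unfold subT at hx
      rw [List.mem_iff_getElem] at hx
      obtain ⟨i, hi, rfl⟩ := hx
      rw [List.getElem_zipWith]
      exact Nat.mod_lt _ (by omega)
    · intro a c j ha hc hj
      have hlt := UB4_idx ha hc hj
      rw [map_sub, ← a3 a c j ha hc hj, ← b3 a c j ha hc hj]
      unfold cfT subT
      have hB : B.getD ((a * (k + 1) + c) * (l + 1) + j) 0 ≤ M := by
        rw [List.getD_eq_getElem _ _ (by rw [b1]; exact hlt)]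
        exact (b2 _ (List.getElem_mem _)).le
      rw [List.getD_eq_getElem _ _ (by simp [a1, b1, hlt]),
        List.getD_eq_getElem _ _ (by rw [a1]; exact hlt), List.getElem_zipWith,
        ZMod.natCast_mod, Nat.cast_add]
      rw [List.getD_eq_getElem _ _ (by rw [b1]; exact hlt)] at hB ⊢
      rw [Nat.cast_sub hB, ZMod.natCast_self]
      ring

end Pool.Agent.helper69.BS

end
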